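import Mathlib

/-! Auxiliary lemmas for piece LINES of project CN (helper26). -/

set_option autoImplicit false

namespace Pool.Agent.W2helper19.CN

open Finset

/-- the colouring is constant on `F` -/
def Mono {X : Type} {D : ℕ} (c : X → Fin D) (F : Finset X) : Prop := ∀ a ∈ F, ∀ b ∈ F, c a = c b

open Classical in
theorem count_mono {X : Type} [Fintype X] (D : ℕ) (F : Finset X) (hF : F.Nonempty) :
    (univ.filter fun c : X → Fin D => Mono c F).card * D ^ F.card ≤ D * D ^ Fintype.card X := by
  obtain ⟨x0, hx0⟩ := hF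
  have h1 : (univ.filter fun c : X → Fin D => Mono c F).card =
      Fintype.card {c : X → Fin D // Mono c F} := by
    rw [Fintype.card_subtype]
  have h2 : Fintype.card ({c : X → Fin D // Mono c F} × (F → Fin D)) =
      (univ.filter fun c : X → Fin D => Mono c F).card * D ^ F.card := by
    rw [Fintype.card_prod, ← h1]
    congr 1
    simp
  have h3 : Fintype.card (Fin D × (X → Fin D)) = D * D ^ Fintype.card X := by
    simp
  rw [← h2, ← h3]
  refine Fintype.card_le_of_injective
    (fun q => (q.1.1 x0, fun x => if h : x ∈ F then q.2 ⟨x, h⟩ else q.1.1 x)) ?_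
  rintro ⟨⟨c, hc⟩, g⟩ ⟨⟨c', hc'⟩, g'⟩ h
  simp only [Prod.mk.injEq] at h
  obtain ⟨h0, h⟩ := h
  have hg : g = g' := by
    funext x
    have := congrFun h x.1
    simpa using this
  have hcc : c = c' := by
    funext x
    by_cases hx : x ∈ F
    · rw [hc x hx x0 hx0, hc' x hx x0 hx0, h0]
    · have := congrFun h x
      simpa [hx] using this
  subst hg
  subst hcc
  rfl

open Classical in
theorem exists_coloring {X J₁ J₂ : Type} [Fintype X] [Fintype J₁] [Fintype J₂] (D r M : ℕ)
    (hD : 1 ≤ D) (hr : 1 ≤ r) (hM : 1 ≤ M) (F₁ : J₁ → Finset X) (F₂ : J₂ → Finset X)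
    (h1 : 2 * Fintype.card J₁ * D ≤ D ^ r) (h2 : 2 * Fintype.card J₂ * D < D ^ M) :
    ∃ c : X → Fin D, (∀ j, r ≤ (F₁ j).card → ¬ Mono c (F₁ j)) ∧
      ∀ j, M ≤ (F₂ j).card → ¬ Mono c (F₂ j) := by
  set T := D ^ Fintype.card X with hT
  have hTpos : 0 < T := by positivity
  -- the bad colourings
  set B₁ : Finset (X → Fin D) := (univ.filter fun j => r ≤ (F₁ j).card).biUnion
    fun j => univ.filter fun c => Mono c (F₁ j) with hB₁
  set B₂ : Finset (X → Fin D) := (univ.filter fun j => M ≤ (F₂ j).card).biUnion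
    fun j => univ.filter fun c => Mono c (F₂ j) with hB₂
  have key : ∀ (J : Type) [Fintype J] (F : J → Finset X) (m : ℕ), 1 ≤ m →
      ((univ.filter fun j => m ≤ (F j).card).biUnion
        fun j => univ.filter fun c : X → Fin D => Mono c (F j)).card * D ^ m ≤
        Fintype.card J * (D * T) := by
    intro J _ F m hm
    calc ((univ.filter fun j => m ≤ (F j).card).biUnion
        fun j => univ.filter fun c : X → Fin D => Mono c (F j)).card * D ^ m
        ≤ (∑ j ∈ univ.filter fun j => m ≤ (F j).card,
          (univ.filter fun c : X → Fin D => Mono c (F j)).card) * D ^ m :=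
          Nat.mul_le_mul_right _ card_biUnion_le
      _ = ∑ j ∈ univ.filter fun j => m ≤ (F j).card,
          (univ.filter fun c : X → Fin D => Mono c (F j)).card * D ^ m := by
          rw [Finset.sum_mul]
      _ ≤ ∑ j ∈ univ.filter fun j => m ≤ (F j).card, D * T := by
          refine Finset.sum_le_sum fun j hj => ?_
          have hj' : m ≤ (F j).card := (Finset.mem_filter.1 hj).2
          have hne : (F j).Nonempty := Finset.card_pos.1 (by omega)
          refine le_trans (Nat.mul_le_mul_left _ (Nat.pow_le_pow_right hD hj')) ?_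
          exact count_mono D (F j) hne
      _ ≤ Fintype.card J * (D * T) := by
          rw [Finset.sum_const, smul_eq_mul]
          exact Nat.mul_le_mul_right _ (Finset.card_le_univ _)
  have k1 := key J₁ F₁ r hr
  have k2 := key J₂ F₂ M hM
  have hDr : 0 < D ^ r := by positivity
  have hDM : 0 < D ^ M := by positivity
  have e1 : 2 * B₁.card ≤ T := by
    have : (2 * B₁.card) * D ^ r ≤ T * D ^ r := by
      calc (2 * B₁.card) * D ^ r = 2 * (B₁.card * D ^ r) := by ring
        _ ≤ 2 * (Fintype.card J₁ * (D * T)) := Nat.mul_le_mul_left _ k1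
        _ = (2 * Fintype.card J₁ * D) * T := by ring
        _ ≤ D ^ r * T := Nat.mul_le_mul_right _ h1
        _ = T * D ^ r := by ring
    exact Nat.le_of_mul_le_mul_right this hDr
  have e2 : 2 * B₂.card < T := by
    have : (2 * B₂.card) * D ^ M < T * D ^ M := by
      calc (2 * B₂.card) * D ^ M = 2 * (B₂.card * D ^ M) := by ring
        _ ≤ 2 * (Fintype.card J₂ * (D * T)) := Nat.mul_le_mul_left _ k2
        _ = (2 * Fintype.card J₂ * D) * T := by ring
        _ < D ^ M * T := Nat.mul_lt_mul_of_pos_right h2 hTpos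
        _ = T * D ^ M := by ring
    exact Nat.lt_of_mul_lt_mul_right this
  have e3 : (B₁ ∪ B₂).card < (univ : Finset (X → Fin D)).card := by
    have h3 : (univ : Finset (X → Fin D)).card = T := by
      simp [hT]
    rw [h3]
    have := Finset.card_union_le B₁ B₂
    omega
  obtain ⟨c, _, hc⟩ := Finset.exists_mem_notMem_of_card_lt_card e3
  refine ⟨c, fun j hj hm => hc ?_, fun j hj hm => hc ?_⟩
  · exact Finset.mem_union_left _ (Finset.mem_biUnion.2 ⟨j, by simp [hj], by simp [hm]⟩)
  · exact Finset.mem_union_right _ (Finset.mem_biUnion.2 ⟨j, by simp [hj], by simp [hm]⟩)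

end Pool.Agent.W2helper19.CN
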