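import Pool.Agent.W2helper26.CN.Defs
import Pool.Agent.W2helper19.CN.Col

/-! Piece LINES of project CN (helper26). -/

set_option autoImplicit false

namespace Pool.Agent.W2helper19.CN

open Finset Pool.Agent.W2helper26.CN

section geo

variable {s p : ℕ} [Fact p.Prime]

theorem row_sub_ne (hsp : s ≤ p) {i j : Fin s} (h : i ≠ j) :
    (((i : ℕ) : ZMod p) - ((j : ℕ) : ZMod p)) ≠ 0 := by
  intro h0
  apply h
  have h1 : ((i : ℕ) : ZMod p) = ((j : ℕ) : ZMod p) := sub_eq_zero.1 h0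
  have h2 := (ZMod.natCast_eq_natCast_iff' _ _ _).1 h1
  rw [Nat.mod_eq_of_lt (lt_of_lt_of_le i.2 hsp), Nat.mod_eq_of_lt (lt_of_lt_of_le j.2 hsp)] at h2
  exact Fin.ext h2

/-- the line through two points -/
noncomputable def ln (v w : Fin s × ZMod p) : ZMod p × ZMod p :=
  (v.2 - (w.2 - v.2) / (((w.1 : ℕ) : ZMod p) - ((v.1 : ℕ) : ZMod p)) * ((v.1 : ℕ) : ZMod p),
    (w.2 - v.2) / (((w.1 : ℕ) : ZMod p) - ((v.1 : ℕ) : ZMod p)))

theorem on_ln_left (v w : Fin s × ZMod p) : On (ln v w) v := by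
  unfold On ln
  simp only
  ring

theorem on_ln_right (hsp : s ≤ p) (v w : Fin s × ZMod p) (h : v.1 ≠ w.1) : On (ln v w) w := by
  unfold On ln
  simp only
  have h0 := row_sub_ne hsp (Ne.symm h)
  field_simp
  ring

theorem on_unique (hsp : s ≤ p) {ℓ m : ZMod p × ZMod p} {v w : Fin s × ZMod p} (h : v.1 ≠ w.1)
    (h1 : On ℓ v) (h2 : On ℓ w) (h3 : On m v) (h4 : On m w) : ℓ = m := by
  unfold On at h1 h2 h3 h4
  have h0 := row_sub_ne hsp h
  have h5 : (ℓ.2 - m.2) * (((v.1 : ℕ) : ZMod p) - ((w.1 : ℕ) : ZMod p)) = 0 := by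
    linear_combination h3 - h1 - h4 + h2
  have h6 : ℓ.2 = m.2 := by
    rcases mul_eq_zero.1 h5 with h | h
    · exact sub_eq_zero.1 h
    · exact absurd h h0
  have h7 : ℓ.1 = m.1 := by
    rw [h6] at h1
    linear_combination h3 - h1
  exact Prod.ext h7 h6

theorem eq_ln (hsp : s ≤ p) {ℓ : ZMod p × ZMod p} {v w : Fin s × ZMod p} (h : v.1 ≠ w.1)
    (h1 : On ℓ v) (h2 : On ℓ w) : ℓ = ln v w :=
  on_unique hsp h h1 h2 (on_ln_left v w) (on_ln_right hsp v w h)

/-- the point of the line in a row -/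
def pnt (ℓ : ZMod p × ZMod p) (i : Fin s) : Fin s × ZMod p := (i, ℓ.1 + ℓ.2 * ((i : ℕ) : ZMod p))

theorem on_pnt (ℓ : ZMod p × ZMod p) (i : Fin s) : On ℓ (pnt ℓ i) := rfl

theorem pnt_of_on {ℓ : ZMod p × ZMod p} {v : Fin s × ZMod p} (h : On ℓ v) : pnt ℓ v.1 = v :=
  Prod.ext rfl h.symm

open Classical in
/-- the lines through `v` and some points of `ℓ` -/
noncomputable def F₁ (r : ℕ) (j : (ZMod p × ZMod p) × (Fin s × ZMod p) × (Fin r → Fin s)) :
    Finset (ZMod p × ZMod p) :=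
  (univ : Finset (Fin r)).image fun i => ln j.2.1 (pnt j.1 (j.2.2 i))

open Classical in
/-- the lines through the pairs of points -/
noncomputable def F₂ (k : ℕ) (τ : Fin k → Fin s × ZMod p) : Finset (ZMod p × ZMod p) :=
  ((univ : Finset (Fin k)).offDiag).image fun q => ln (τ q.1) (τ q.2)

theorem card_F₁ (hsp : s ≤ p) (r : ℕ) (ℓ : ZMod p × ZMod p) (v : Fin s × ZMod p)
    (f : Fin r → Fin s) (hf : Function.Injective f) (hv : ¬ On ℓ v) (hne : ∀ i, f i ≠ v.1) :
    (F₁ r (ℓ, v, f)).card = r := by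
  classical
  unfold F₁
  rw [Finset.card_image_of_injective, Finset.card_univ, Fintype.card_fin]
  intro i j hij
  by_contra h
  simp only at hij
  have h1 : f i ≠ f j := fun h' => h (hf h')
  set m := ln v (pnt ℓ (f i)) with hm
  have h2 : On m (pnt ℓ (f i)) := on_ln_right hsp _ _ (Ne.symm (hne i))
  have h3 : On m (pnt ℓ (f j)) := by
    rw [hij]
    exact on_ln_right hsp _ _ (Ne.symm (hne j))
  have h4 : ℓ = m := on_unique (v := pnt ℓ (f i)) (w := pnt ℓ (f j)) hsp h1 (on_pnt _ _)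
    (on_pnt _ _) h2 h3
  apply hv
  rw [h4]
  exact on_ln_left _ _

end geo

theorem num₁ (s p L : ℕ) (hs : 2 ≤ s) (h : s * p ≤ 2 ^ L) :
    2 * ((p * p) * ((s * p) * s ^ (3 * L + 5))) * s ^ 2 ≤ (s ^ 2) ^ (3 * L + 5) := by
  have h1 : (s * p) ^ 3 ≤ 2 ^ (3 * L) := by
    calc (s * p) ^ 3 ≤ (2 ^ L) ^ 3 := Nat.pow_le_pow_left h 3
      _ = 2 ^ (3 * L) := by rw [← pow_mul, mul_comm]
  have h2 : 2 * (s * p) ^ 3 ≤ s ^ (3 * L + 5) := by
    calc 2 * (s * p) ^ 3 ≤ 2 * 2 ^ (3 * L) := Nat.mul_le_mul_left _ h1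
      _ = 2 ^ (3 * L + 1) := by rw [pow_succ, mul_comm]
      _ ≤ 2 ^ (3 * L + 5) := Nat.pow_le_pow_right (by norm_num) (by omega)
      _ ≤ s ^ (3 * L + 5) := Nat.pow_le_pow_left hs _
  calc 2 * ((p * p) * ((s * p) * s ^ (3 * L + 5))) * s ^ 2
      = (2 * (s * p) ^ 3) * s ^ (3 * L + 5) := by ring
    _ ≤ s ^ (3 * L + 5) * s ^ (3 * L + 5) := Nat.mul_le_mul_right _ h2
    _ = (s ^ 2) ^ (3 * L + 5) := by rw [← pow_mul, ← pow_add]; congr 1; ring

theorem num₂ (s p k L : ℕ) (hs : 2 ≤ s) (hk : 1 ≤ k) (h : s * p ≤ 2 ^ L) :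
    2 * (s * p) ^ k * s ^ 2 < (s ^ 2) ^ (k * (L + 2)) := by
  have h1 : (s * p) ^ k ≤ s ^ (L * k) := by
    calc (s * p) ^ k ≤ (2 ^ L) ^ k := Nat.pow_le_pow_left h k
      _ = 2 ^ (L * k) := by rw [← pow_mul]
      _ ≤ s ^ (L * k) := Nat.pow_le_pow_left hs _
  calc 2 * (s * p) ^ k * s ^ 2 ≤ s * s ^ (L * k) * s ^ 2 :=
        Nat.mul_le_mul_right _ (Nat.mul_le_mul hs h1)
    _ = s ^ (L * k + 3) := by ring
    _ < s ^ (2 * (k * (L + 2))) := by
        apply Nat.pow_lt_pow_right (by omega)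
        have : 2 * (k * (L + 2)) = L * k + L * k + 4 * k := by ring
        have h5 : 0 ≤ L * k := Nat.zero_le _
        omega
    _ = (s ^ 2) ^ (k * (L + 2)) := by rw [← pow_mul]

theorem p_lines : P_LINES := by
  classical
  intro s p k L hp hs hsp hL hk
  have : Fact p.Prime := ⟨hp⟩
  have : NeZero p := ⟨hp.ne_zero⟩
  set r := 3 * L + 5 with hr
  have hk1 : 1 ≤ k := by omega
  have hD : 1 ≤ s ^ 2 := Nat.one_le_pow _ _ (by omega)
  have hM : 1 ≤ k * (L + 2) := Nat.mul_pos hk1 (by omega)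
  obtain ⟨c, hc1, hc2⟩ := exists_coloring (X := ZMod p × ZMod p)
    (J₁ := (ZMod p × ZMod p) × (Fin s × ZMod p) × (Fin r → Fin s))
    (J₂ := Fin k → Fin s × ZMod p) (s ^ 2) r (k * (L + 2)) hD (by omega) hM (F₁ r) (F₂ k)
    (by
      have := num₁ s p L hs hL
      simpa [ZMod.card, Fintype.card_prod] using this)
    (by
      have := num₂ s p k L hs hk1 hL
      simpa [ZMod.card, Fintype.card_prod] using this)
  -- a large colour class
  obtain ⟨d, hd⟩ : ∃ d : Fin (s ^ 2), p ^ 2 ≤ s ^ 2 * (univ.filter fun x => c x = d).card := by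
    by_contra hcon
    push Not at hcon
    have h1 : ∑ d : Fin (s ^ 2), s ^ 2 * (univ.filter fun x => c x = d).card <
        ∑ _d : Fin (s ^ 2), p ^ 2 := by
      refine Finset.sum_lt_sum_of_nonempty ⟨⟨0, hD⟩, mem_univ _⟩ fun d _ => hcon d
    rw [← Finset.mul_sum, ← Finset.card_eq_sum_card_fiberwise (fun x _ => Finset.mem_coe.2 (mem_univ (c x)))] at h1
    simp only [Finset.card_univ, Fintype.card_prod, ZMod.card, Finset.sum_const, Fintype.card_fin,
      smul_eq_mul] at h1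
    rw [sq p] at h1
    exact lt_irrefl _ h1
  refine ⟨univ.filter fun x => c x = d, hd, fun τ hrow hcl => ?_⟩
  set A := univ.filter fun x => c x = d with hA
  have hmono : ∀ F : Finset (ZMod p × ZMod p), F ⊆ A → Mono c F := by
    intro F hF a ha b hb
    have h1 := (Finset.mem_filter.1 (hF ha)).2
    have h2 := (Finset.mem_filter.1 (hF hb)).2
    rw [h1, h2]
  -- all lines through two points are in `A`
  have hlnA : ∀ x y, x ≠ y → ln (τ x) (τ y) ∈ A := by
    intro x y hxy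
    obtain ⟨ℓ, hℓ, h1, h2⟩ := hcl x y hxy
    rw [← eq_ln hsp (hrow x y hxy) h1 h2]
    exact hℓ
  by_cases hbig : ∃ ℓ : ZMod p × ZMod p, r ≤ (univ.filter fun x => On ℓ (τ x)).card
  · obtain ⟨ℓ, hℓ⟩ := hbig
    have hall : ∀ y, On ℓ (τ y) := by
      intro y
      by_contra hy
      obtain ⟨S, hS, hSc⟩ := Finset.exists_subset_card_eq hℓ
      let g : Fin r → Fin k := fun i => (S.orderEmbOfFin hSc i)
      have hgi : Function.Injective g := (S.orderEmbOfFin hSc).injective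
      have hgS : ∀ i, On ℓ (τ (g i)) := fun i =>
        (Finset.mem_filter.1 (hS (S.orderEmbOfFin_mem hSc i))).2
      have hgy : ∀ i, g i ≠ y := fun i h => hy (h ▸ hgS i)
      let f : Fin r → Fin s := fun i => (τ (g i)).1
      have hfi : Function.Injective f := by
        intro i j hij
        by_contra hne
        exact hrow (g i) (g j) (fun h => hne (hgi h)) hij
      have hfy : ∀ i, f i ≠ (τ y).1 := fun i => hrow _ _ (hgy i)
      have hcard := card_F₁ hsp r ℓ (τ y) f hfi hy hfy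
      refine hc1 (ℓ, τ y, f) hcard.ge (hmono _ ?_)
      intro m hm
      obtain ⟨i, _, rfl⟩ := Finset.mem_image.1 hm
      simp only
      have h1 : pnt ℓ (f i) = τ (g i) := pnt_of_on (hgS i)
      rw [h1]
      exact hlnA y (g i) (Ne.symm (hgy i))
    have hk2 : 2 ≤ k := by
      have : 1 ≤ r ^ 2 * (L + 2) := Nat.mul_pos (by positivity) (by omega)
      omega
    refine ⟨ℓ, ?_, hall⟩
    have hne : (⟨0, by omega⟩ : Fin k) ≠ ⟨1, by omega⟩ := by
      intro h
      have := congrArg Fin.val h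
      simp at this
    rw [eq_ln hsp (hrow _ _ hne) (hall _) (hall _)]
    exact hlnA _ _ hne
  · exfalso
    push Not at hbig
    refine hc2 τ ?_ (hmono _ ?_)
    · have h1 : ((univ : Finset (Fin k)).offDiag).card ≤ r ^ 2 * (F₂ k τ).card := by
        unfold F₂
        refine Finset.card_le_mul_card_image _ _ fun ℓ _ => ?_
        have h2 : (((univ : Finset (Fin k)).offDiag).filter fun q => ln (τ q.1) (τ q.2) = ℓ) ⊆
            (univ.filter fun x => On ℓ (τ x)) ×ˢ (univ.filter fun x => On ℓ (τ x)) := by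
          intro q hq
          rw [Finset.mem_filter, Finset.mem_offDiag] at hq
          rw [Finset.mem_product, Finset.mem_filter, Finset.mem_filter]
          refine ⟨⟨mem_univ _, ?_⟩, mem_univ _, ?_⟩
          · rw [← hq.2]
            exact on_ln_left _ _
          · rw [← hq.2]
            exact on_ln_right hsp _ _ (hrow _ _ hq.1.2.2)
        calc _ ≤ _ := Finset.card_le_card h2
          _ = (univ.filter fun x => On ℓ (τ x)).card ^ 2 := by
              rw [Finset.card_product, sq]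
          _ ≤ r ^ 2 := Nat.pow_le_pow_left (hbig ℓ).le 2
      rw [Finset.offDiag_card, Finset.card_univ, Fintype.card_fin] at h1
      have hr0 : 0 < r ^ 2 := by positivity
      have h3 : k * k - k = k * (k - 1) := by
        rw [Nat.mul_sub_one]
      have h4 : r ^ 2 * (k * (L + 2)) ≤ r ^ 2 * (F₂ k τ).card := by
        calc r ^ 2 * (k * (L + 2)) = k * (r ^ 2 * (L + 2)) := by ring
          _ ≤ k * (k - 1) := Nat.mul_le_mul_left _ (by omega)
          _ = k * k - k := h3.symm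
          _ ≤ _ := h1
      exact Nat.le_of_mul_le_mul_left h4 hr0
    · intro m hm
      obtain ⟨q, hq, rfl⟩ := Finset.mem_image.1 hm
      rw [Finset.mem_offDiag] at hq
      exact hlnA _ _ hq.2.2

end Pool.Agent.W2helper19.CN
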